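import Pool.Agent.H779R2.Mo.MainM

set_option autoImplicit false

open scoped Manifold ContDiff Topology Bundle
open Set Filter Bundle

namespace Pool.Agent.Results.MP_5c499f_an.ConformalToral

open Pool.Agent.H721R2 Pool.Agent.H789R2.AN Pool.Agent.H779R2.An Pool.Agent.H779R2.To
  Pool.Agent.H779R2.Mo

/-- **Complex Franks and Newhouse theorem.**
Let `f` be a `C²` Anosov diffeomorphism of a closed connected smooth manifold `M`, with splitting
`TM = Es ⊕ Eu` of ranks `ds`, `du`.  Suppose that one of the following holds: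
* `du = 2`, `ds ≥ 2` and `Eu` carries a continuous `Df`-invariant complex structure
  (`InvComplexOn`); nothing else is assumed, in particular nothing on `Es`;
* `ds = 2`, `du ≥ 2` and `Es` carries one;
* `f` preserves a continuous almost complex structure on `M` (`PreservesAC`; for instance `M` is a
  complex manifold and `f` is holomorphic) and one of the two bundles has (real) rank `2`, the other
  one being nonzero.
Then `f` is topologically conjugate to a hyperbolic toral automorphism: there are a homeomorphism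
`h` from `M` onto a torus `(ℝ/ℤ)^m` and an integer matrix `A` with determinant `±1` and without
eigenvalues of modulus one such that `h ∘ f = A ∘ h`. -/
theorem result (E : Type*) [NormedAddCommGroup E] [NormedSpace ℝ E] [FiniteDimensional ℝ E]
    (M : Type*) [TopologicalSpace M] [T2Space M] [CompactSpace M] [ConnectedSpace M]
    [ChartedSpace E M] [IsManifold 𝓘(ℝ, E) ∞ M] (f : Diffeomorph 𝓘(ℝ, E) 𝓘(ℝ, E) M M 1)
    (hf2 : ContMDiff 𝓘(ℝ, E) 𝓘(ℝ, E) 2 f) (hf2' : ContMDiff 𝓘(ℝ, E) 𝓘(ℝ, E) 2 f.symm)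
    (Es Eu : ∀ x : M, Submodule ℝ (TangentSpace 𝓘(ℝ, E) x)) (hA : IsAnosov f Es Eu)
    (ds du : ℕ) (hds : ∀ x, Module.finrank ℝ (Es x) = ds)
    (hdu : ∀ x, Module.finrank ℝ (Eu x) = du)
    (hJ : (du = 2 ∧ 2 ≤ ds ∧ ∃ J, InvComplexOn f Eu J) ∨
      (ds = 2 ∧ 2 ≤ du ∧ ∃ J, InvComplexOn f Es J) ∨
      ((du = 2 ∨ ds = 2) ∧ 1 ≤ ds ∧ 1 ≤ du ∧
        ∃ J : ∀ x : M, TangentSpace 𝓘(ℝ, E) x →ₗ[ℝ] TangentSpace 𝓘(ℝ, E) x, PreservesAC f J)) :
    ∃ (m : ℕ) (A : Matrix (Fin m) (Fin m) ℤ) (h : M ≃ₜ (Fin m → AddCircle (1 : ℝ))),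
      IsUnit A.det ∧ HypMat A ∧ ∀ x i, h (f x) i = ∑ j, A i j • h x j :=
  (main_conf E M f hf2 hf2' Es Eu hA ds du hds hdu
    (conf_cases E M f Es Eu hA ds du hds hdu hJ)).1

end Pool.Agent.Results.MP_5c499f_an.ConformalToral
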