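import Pool.Agent.H147R2.RI.Main2
import Pool.Agent.H147R2.RI.JF

set_option autoImplicit false

open scoped Manifold ContDiff Topology Bundle
open Set Filter Bundle

namespace Pool.Agent.Results.MP_5c499f_an.RealConformalFinitelyToral

open Pool.Agent.H721R2 Pool.Agent.H789R2.AN Pool.Agent.H779R2.An Pool.Agent.H779R2.To
  Pool.Agent.H779R2.Nu Pool.Agent.H147R2.RI

/-- **Anosov diffeomorphisms with a conformal bundle of any rank.**
Let `f` be a `C²` Anosov diffeomorphism of a closed connected smooth manifold `M`, with splitting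
`TM = Es ⊕ Eu` of ranks `ds, du ≥ 2`.  Suppose that one of the two bundles, of ANY rank `≥ 2`,
carries a continuous Euclidean structure for which `Df` is conformal (`InvConfOn`); nothing is
assumed on the other bundle, and `f` is not assumed to be transitive.
Then `f` is topologically conjugate to a hyperbolic infra-toral automorphism, in particular
finitely covered by a hyperbolic toral automorphism: there are a matrix `A` in `GL(m, ℤ)` without
eigenvalues of modulus one and a covering map `P : ℝᵐ → M` with `f ∘ P = P ∘ A`, such that `P` is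
`ℤᵐ`-periodic, every fibre of `P` is a finite union of `ℤᵐ`-orbits, and the deck transformations
of `P` (which are transitive on the fibres) are affine maps `x ↦ B x + c` with `B ∈ GL(m, ℤ)`. -/
theorem result (E : Type*) [NormedAddCommGroup E] [NormedSpace ℝ E] [FiniteDimensional ℝ E]
    (M : Type*) [TopologicalSpace M] [T2Space M] [CompactSpace M] [ConnectedSpace M]
    [ChartedSpace E M] [IsManifold 𝓘(ℝ, E) ∞ M] (f : Diffeomorph 𝓘(ℝ, E) 𝓘(ℝ, E) M M 1)
    (hf2 : ContMDiff 𝓘(ℝ, E) 𝓘(ℝ, E) 2 f) (hf2' : ContMDiff 𝓘(ℝ, E) 𝓘(ℝ, E) 2 f.symm)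
    (Es Eu : ∀ x : M, Submodule ℝ (TangentSpace 𝓘(ℝ, E) x)) (hA : IsAnosov f Es Eu)
    (ds du : ℕ) (hds : ∀ x, Module.finrank ℝ (Es x) = ds)
    (hdu : ∀ x, Module.finrank ℝ (Eu x) = du) (h2s : 2 ≤ ds) (h2u : 2 ≤ du)
    (hG : (∃ G, InvConfOn f Eu G) ∨ ∃ G, InvConfOn f Es G) :
    ∃ (m : ℕ) (A : Matrix (Fin m) (Fin m) ℤ) (P : (Fin m → ℝ) → M),
      IsUnit A.det ∧ HypMat A ∧ IsCoveringMap P ∧ Function.Surjective P ∧
      (∀ x, f (P x) = P ((A.map (Int.cast : ℤ → ℝ)).mulVec x)) ∧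
      (∀ (x : Fin m → ℝ) (z : Fin m → ℤ), P (x + fun i => (z i : ℝ)) = P x) ∧
      (∀ a, ∃ S : Finset (Fin m → ℝ), ∀ x, P x = a → ∃ s ∈ S, ∃ z : Fin m → ℤ,
        x = s + fun i => (z i : ℝ)) ∧
      ∀ x y, P x = P y → ∃ (B : Matrix (Fin m) (Fin m) ℤ) (c : Fin m → ℝ), IsUnit B.det ∧
        y = (B.map (Int.cast : ℤ → ℝ)).mulVec x + c ∧
        ∀ w, P ((B.map (Int.cast : ℤ → ℝ)).mulVec w + c) = P w := by
  obtain ⟨m, A, P, h1, h2, h3, h4, h5, h6, h7⟩ := main_infra E M f hf2 hf2' Es Eu hA ds du hds hdu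
    (hG.elim (fun h => Or.inl ⟨h2u, h2s, h⟩) fun h => Or.inr ⟨h2s, h2u, h⟩)
  exact ⟨m, A, P, h1, h2, h3, h4, h5, h6, fib_fin P h3 h6, h7⟩

end Pool.Agent.Results.MP_5c499f_an.RealConformalFinitelyToral
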